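import Pool.Agent.Y228.PC.Cand

/-!
# The local p-adic zeta function in four variables, compact faces
-/

set_option autoImplicit false

namespace Pool.Agent.Y228.PC

open MeasureTheory
open Pool.Agent.H628R4.TP Pool.Agent.W425.MM
open Pool.Agent.W425.ND (spa Nondeg prodb prodb_eval parts)
open Pool.Agent.W425.PN (qpoly)
open Pool.Agent.W426.SM (gord IsRay face)
open Pool.Agent.W425.SV (RelV Kil1)
open Pool.Agent.W425.SG (UnitEq)
open Pool.Agent.TH216.HD hiding IsRay
open Pool.Agent.TH216.HDNL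
open Pool.Agent.TH216.ND
open Pool.Agent.TH216.MF (RelG KilU KRelJ RecJ)
open Pool.Agent.TH216.LX (Vert)
open Pool.Agent.Y231.N4
open Pool.Agent.Y228.ND4
open Pool.Agent.Y228.PL
open Pool.Agent.Y229.CF

variable {r : ℕ}

/-- The relations and the levels of a nondegenerate polynomial in four variables. -/
theorem levelsP (hr : 0 < r) (v : Fin r → Fin 4 → ℕ) (hv : Function.Injective v)
    (hv0 : ∀ j, v j ≠ 0) (c : Fin r → ℂ) (hnd : NondegC v c) : ∃ (V : Finset (Fin r)) (_ : Spans v V),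
    (∀ α, ¬ PW True (spa v c) α → ∃ (θ : Fin V.card → ℤ) (p : Polynomial ℂ),
      RelG (vV v V) (Kil1 (vV v V)) (KilU (vV v V) θ) p ∧ p.eval (α : ℂ) ≠ 0) ∧
    ∀ a : Fin 4 → ℕ, IsRay v a → 0 < gord v a →
      ¬ PW True (spa v c) (-(((∑ i, a i : ℕ) : ℚ) / gord v a)) →
      HypS4 (vV v V) ((((∑ i, a i : ℕ) : ℚ) / gord v a : ℚ) : ℝ) := by
  classical
  have hne : NeZero r := ⟨by omega⟩
  obtain ⟨V, hV, hVert⟩ := exists_vert v hv
  have hcard := (gord_vV hr v V hV 0).1
  have hgord : ∀ a, gord (vV v V) a = gord v a := fun a => (gord_vV hr v V hV a).2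
  set P : ℚ → Prop := PW True (spa v c) with hPdef
  have hroot : ∀ σ : ℚ, (∃ a : Fin 4 → ℕ, 0 < gord v a ∧
      (-(σ : ℂ)) = -(((∑ i, a i : ℕ) : ℂ) / gord v a)) → (∀ p : Polynomial ℂ,
      (∀ θ : Fin r → ℝ, LinearIndependent ℚ θ → RelV v θ True p) →
        p.eval (-(σ : ℂ)) = 0) → P (-σ) := by
    rintro σ ⟨a, hg, he⟩ h b hb1 hb
    obtain ⟨K, L, hK⟩ := relV_all v _ hv hv0 hnd b hb
    have h1 := h (prodb b K * dL L) hK
    rw [Polynomial.eval_mul, mul_eq_zero, he] at h1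
    have h1 := h1.resolve_right (dL_neg v a L hg)
    rw [← he, prodb_eval, Finset.prod_eq_zero_iff] at h1
    obtain ⟨i, -, hi⟩ := h1
    refine ⟨(i : ℤ), ?_⟩
    push_cast
    exact hi
  refine ⟨V, hV, fun α hα => ?_, fun a ha hg hcon => ?_⟩
  · rw [hPdef] at hα
    unfold PW at hα
    push Not at hα
    obtain ⟨b, hb1, hb, hroot⟩ := hα
    obtain ⟨K, L, hK⟩ := relV_all v _ hv hv0 hnd b hb
    obtain ⟨θ, hθ⟩ := rel_vV v V hV True (prodb b K * dL L) hK
    refine ⟨θ, prodb b K * dL L, hθ, ?_⟩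
    rw [Polynomial.eval_mul, prodb_eval]
    refine mul_ne_zero (Finset.prod_ne_zero_iff.2 fun i _ => ?_) (dL_ne _ _ fun t ht => ?_)
    · exact_mod_cast hroot (i : ℤ)
    · apply hroot ((t : ℤ) + 1)
      rw [← hb1]
      congr 1
      have h1 : (α : ℂ) = t := ht
      rw [h1]
      push_cast
      ring
  · have hgC : ((gord v a : ℕ) : ℂ) ≠ 0 := by exact_mod_cast hg.ne'
    have hgq : ((gord v a : ℕ) : ℚ) ≠ 0 := by exact_mod_cast hg.ne'
    set σ : ℚ := ((∑ i, a i : ℕ) : ℚ) / gord v a with hσ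
    by_cases hint : ∃ t : ℤ, σ = t
    · obtain ⟨t, ht⟩ := hint
      exfalso
      apply hcon
      intro b hb1 _
      refine ⟨1 - t, ?_⟩
      rw [ht]
      have e : (((-(t : ℚ) : ℚ) : ℂ) - ((1 - t : ℤ) : ℂ)) = -1 := by
        push_cast
        ring
      rw [e, hb1]
    · refine AZ.main (vV v V) hcard hVert (σ : ℝ) ?_ ?_ ?_
      · intro h
        exact hint ⟨1, by exact_mod_cast h⟩
      · intro h
        exact hint ⟨2, by exact_mod_cast h⟩
      intro a' ha' hg' hl
      have hgq' : ((gord (vV v V) a' : ℕ) : ℚ) ≠ 0 := by exact_mod_cast hg'.ne'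
      have hl' : ((∑ i, a' i : ℕ) : ℚ) / gord (vV v V) a' = σ := by
        apply Rat.cast_injective (α := ℝ)
        push_cast
        push_cast at hl
        exact hl
      have h3 : ∑ i, a' i ≠ gord (vV v V) a' := by
        intro h3
        apply hint
        refine ⟨1, ?_⟩
        rw [← hl', h3, div_self hgq']
        norm_num
      have h4 : ∑ i, a' i ≠ 2 * gord (vV v V) a' := by
        intro h4
        apply hint
        refine ⟨2, ?_⟩
        rw [← hl', h4]
        push_cast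
        rw [mul_div_assoc, div_self hgq', mul_one]
      have hg'' : 0 < gord v a' := by rw [← hgord]; exact hg'
      have hσ' : (-(σ : ℂ)) = -(((∑ i, a' i : ℕ) : ℂ) / gord v a') := by
        rw [← hl', hgord]
        push_cast
        rfl
      rcases fac (vV v V) hcard hVert a' ha' hg' h3 h4 with h5 | h5 | h5 | h5
      · exfalso
        apply hcon
        refine hroot σ ⟨a', hg'', hσ'⟩ fun p hp => ?_
        rw [hσ']
        exact a5 v True p hp a' hg'' (nonB_iV hr v V hV a' h5)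
      · exfalso
        apply hcon
        refine hroot σ ⟨a', hg'', hσ'⟩ fun p hp => ?_
        obtain ⟨θ, hθ, hR⟩ := stR1 v a' hg'' (circ_iV hr v V hV a' h5)
        rw [hσ']
        exact hR p (hp θ hθ)
      · exfalso
        apply hcon
        refine hroot σ ⟨a', hg'', hσ'⟩ fun p hp => ?_
        obtain ⟨θ, hθ, hR⟩ := stR2 v a' hg'' (pnt_iV hr v V hV a' h5)
        rw [hσ']
        exact hR p (hp θ hθ)
      · exact h5

/-- **The local p-adic zeta functions of polynomials in four variables which are nondegenerate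
for the compact faces.** -/
theorem padic_cf4 (hr : 0 < r) (v : Fin r → Fin 4 → ℕ) (c : Fin r → ℚ)
    (hv : Function.Injective v) (hv0 : ∀ j, v j ≠ 0) (hc : ∀ j, c j ≠ 0)
    (hnd : NondegC v (fun j => ((c j : ℚ) : ℂ))) :
    ∃ S : Finset ℕ, ∀ (p : ℕ) [Fact p.Prime], p ∉ S →
      ∀ [MeasurableSpace (Fin 4 → PadicInt p)] [BorelSpace (Fin 4 → PadicInt p)],
      ∀ F : ℂ → ℂ, MeromorphicOn F Set.univ →
        (∀ s : ℂ, 0 < s.re →
          F s = ∫ x in {x : Fin 4 → PadicInt p | ∀ i, ‖x i‖ ≤ (p : ℝ) ^ (-(1 : ℤ))},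
                  ((‖MvPolynomial.eval₂ (algebraMap ℚ (Padic p))
                    (fun i => ((x i : PadicInt p) : Padic p)) (qpoly v c)‖ : ℝ) : ℂ) ^ s
                  ∂(Measure.addHaar : Measure (Fin 4 → PadicInt p))) →
        ∀ s₀ : ℂ, meromorphicOrderAt F s₀ < 0 → ∀ b : Polynomial ℂ,
          IsLocalBFunction (spa v (fun j => ((c j : ℚ) : ℂ))) b →
          ∃ i : ℤ, b.eval ((s₀.re : ℂ) - i) = 0 := by
  classical
  have hne : NeZero r := ⟨by omega⟩
  have hND : NonDP v (fun j => algebraMap ℚ ℂ (c j)) := taskB1' ℚ ℂ v c hr hnd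
  have hZ := zmbP 0 v c 1 one_pos (zmaBP v c hc hr hND)
  have hZ0 : ZMlP 0 v c 1 := by
    obtain ⟨S, hS⟩ := hZ
    refine ⟨S, fun p hp hpS _ _ => ?_⟩
    obtain ⟨V, C₀, C₁, hV, -, h⟩ := hS p hpS
    exact ⟨V, C₀, C₁, hV, h⟩
  obtain ⟨S1, hS1⟩ := polesLP v c hr hZ0
  obtain ⟨S2, hS2⟩ := padic_regP hr v hv c hZ
  obtain ⟨V, hV, hP, hL⟩ := levelsP hr v hv hv0 _ hnd
  refine ⟨S1 ∪ S2, fun p hpf hp _ _ F hF hFI s₀ hs₀ b hb => ?_⟩
  rw [Finset.mem_union, not_or] at hp
  obtain ⟨h1, h2⟩ := of_local' v (by omega) _ hv hv0 hnd b hb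
  rcases hS1 p hp.1 (fun _ => 1) (fun _ => le_rfl) F hF hFI s₀ hs₀ with h | ⟨a, ha, hg, h⟩
  · refine ⟨0, ?_⟩
    have h3 : ((s₀.re : ℂ) - ((0 : ℤ) : ℂ)) = -1 := by
      rw [h]
      push_cast
      ring
    rw [h3, h1]
  · set σ : ℚ := ((∑ i, a i : ℕ) : ℚ) / gord v a with hσ
    have hgq : ((gord v a : ℕ) : ℚ) ≠ 0 := by exact_mod_cast hg.ne'
    have hre : s₀.re = ((-σ : ℚ) : ℝ) := by
      rw [h, hσ]
      push_cast
      ring
    by_cases hPσ : PW True (spa v (fun j => ((c j : ℚ) : ℂ))) (-σ)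
    · obtain ⟨i, hi⟩ := hPσ b h1 h2
      refine ⟨i, ?_⟩
      rw [hre]
      rw [← hi]
      push_cast
      rfl
    · have hs1 : s₀.re ≠ -1 := by
        intro h3
        apply hPσ
        intro b' hb1 _
        refine ⟨0, ?_⟩
        have h4 : (-σ : ℚ) = -1 := by
          rw [h3] at hre
          exact_mod_cast hre.symm
        rw [h4]
        push_cast
        rw [sub_zero]
        exact hb1
      exfalso
      have hp2 : 2 ≤ p := hpf.out.two_le
      have hlog : Real.log p ≠ 0 := (Real.log_pos (by exact_mod_cast (by omega : 1 < p))).ne'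
      have h5 := hS2 p hp.2 F hF hFI s₀ hs1 (fun e he he' => by
        refine hb_nd4 hr v hv V hV (PW True (spa v (fun j => ((c j : ℚ) : ℂ)))) hP p hp2 e he he'
          ((p : ℂ) ^ (-s₀)) ?_ σ ⟨hL a ha hg hPσ, hPσ⟩ ?_
        · rw [Ne, Complex.cpow_eq_zero_iff]
          push Not
          intro h6
          exact absurd h6 (by exact_mod_cast (by omega : p ≠ 0))
        · rw [Complex.norm_natCast_cpow_of_pos (by omega), Real.log_rpow (by positivity),
            Complex.neg_re, hre]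
          field_simp
          push_cast
          ring)
      exact absurd hs₀ (not_lt.2 h5)

end Pool.Agent.Y228.PC
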