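import Pool.Agent.Y228.PL.CR
import Pool.Agent.Y229.CF.N4A
import Pool.Agent.Y229.CF.NonG

/-!
# The identities of the Nullstellensatz for the compact faces
-/

set_option autoImplicit false

namespace Pool.Agent.Y228.PC

open MvPolynomial MeasureTheory
open Pool.Agent.W426.SM (gord face)
open Pool.Agent.W425.PN (Idn)
open Pool.Agent.Y228.PL
open Pool.Agent.Y229.CF (NonDP)

variable {n k : ℕ}

theorem idn_ofP {F : Type} [Field F] [Algebra F ℂ] {n k : ℕ} (m : Fin k → Fin n → ℕ)
    (c : Fin k → F) (h : NonDP m (fun j => algebraMap F ℂ (c j))) (u : Fin n → ℕ) (hu : ∀ i, 0 < u i) :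
    Idn m c (Finset.univ.filter fun j => ∑ i, u i * m j i = gord m u) := by
  classical
  set τ : Finset (Fin k) := Finset.univ.filter fun j => ∑ i, u i * m j i = gord m u with hτ
  set F0 : MvPolynomial (Fin n) F := ∑ j ∈ τ, C (c j) * ∏ i, X i ^ m j i with hF0
  set Fi : Fin n → MvPolynomial (Fin n) F := fun i =>
    ∑ j ∈ τ, C (c j * (m j i : F)) * ∏ i', X i' ^ m j i' with hFi
  set I : Ideal (MvPolynomial (Fin n) F) := Ideal.span (insert F0 (Set.range Fi)) with hI
  have hmem : (∏ i, X i : MvPolynomial (Fin n) F) ∈ I.radical := by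
    rw [← vanishingIdeal_zeroLocus_eq_radical (K := ℂ), mem_vanishingIdeal_iff]
    intro z hz
    rw [mem_zeroLocus_iff] at hz
    rw [map_prod]
    by_contra hne
    simp only [aeval_X] at hne
    have hz0 : ∀ i, z i ≠ 0 := fun i hi => hne (Finset.prod_eq_zero (Finset.mem_univ i) hi)
    have h0 : aeval z F0 = 0 := hz F0 (Ideal.subset_span (Set.mem_insert _ _))
    have h1 : ∀ i, aeval z (Fi i) = 0 := fun i =>
      hz (Fi i) (Ideal.subset_span (Set.mem_insert_of_mem _ ⟨i, rfl⟩))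
    obtain ⟨i, hi⟩ := h u hu z hz0 (by
      refine Eq.trans ?_ h0
      rw [hF0, map_sum, hτ, Finset.sum_filter]
      refine Finset.sum_congr rfl fun j _ => ?_
      by_cases hj : ∑ i, u i * m j i = gord m u
      · rw [if_pos hj, if_pos (show face m u j from hj)]
        simp
      · have hfj : ¬ face m u j := hj
        simp only [if_neg hj, if_neg hfj])
    apply hi
    refine Eq.trans ?_ (h1 i)
    rw [hFi]
    simp only
    rw [map_sum, hτ, Finset.sum_filter]
    refine Finset.sum_congr rfl fun j _ => ?_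
    by_cases hj : ∑ i, u i * m j i = gord m u
    · rw [if_pos hj, if_pos (show face m u j from hj)]
      simp [mul_assoc]
    · have hfj : ¬ face m u j := hj
      simp only [if_neg hj, if_neg hfj]
  obtain ⟨M, hM⟩ := hmem
  rw [hI, Ideal.mem_span_insert] at hM
  obtain ⟨B0, z, hz, hMz⟩ := hM
  rw [Ideal.mem_span_range_iff_exists_fun] at hz
  obtain ⟨B, hB⟩ := hz
  exact ⟨M, B0, B, by rw [hMz, ← hB]⟩

/-- for four variables: the parts of a face -/
theorem idn2_faceP {F : Type} [Field F] [Algebra F ℂ] (m : Fin k → Fin 4 → ℕ) (c : Fin k → F)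
    (hN : NonDP m (fun j => algebraMap F ℂ (c j))) {i l : Fin 4} (hil : i ≠ l)
    (τ0 τ1 τ2 : Finset (Fin k)) (h0 : ∀ j ∈ τ0, m j i = 0 ∧ m j l = 0)
    (h1 : ∀ j ∈ τ1, m j i = 1 ∧ m j l = 0) (h2 : ∀ j ∈ τ2, m j i = 0 ∧ m j l = 1)
    (hn1 : τ1.Nonempty) (hn2 : τ2.Nonempty)
    (hx : ∃ x : Fin 4 → ℕ, (∀ i, 0 < x i) ∧ Pool.Agent.W428.MOT.amin m x = τ0 ∪ (τ1 ∪ τ2)) :
    Idn2 m c τ1 τ2 := by
  classical
  obtain ⟨x, hx, hxτ⟩ := hx
  refine idn2_of m c τ1 τ2 fun z hz => ?_
  have hN' : ∀ (u : Fin 4 → ℕ), (∀ i, 0 < u i) → ∀ (z : Fin 4 → ℂ), (∀ i, z i ≠ 0) →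
      Pool.Agent.W428.MOT.gbar m (fun j => algebraMap F ℂ (c j))
        (Pool.Agent.W428.MOT.amin m u) z = 0 →
      ∃ i, Pool.Agent.W428.MOT.dgbar m (fun j => algebraMap F ℂ (c j))
        (Pool.Agent.W428.MOT.amin m u) i z ≠ 0 := by
    intro u hu z hz h
    have hsum : ∀ g : Fin k → ℂ, ∑ j, (if face m u j then g j else 0) =
        ∑ j ∈ Pool.Agent.W428.MOT.amin m u, g j := by
      intro g
      unfold Pool.Agent.W428.MOT.amin
      rw [Finset.sum_filter]
      refine Finset.sum_congr rfl fun j _ => ?_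
      by_cases hj : ∑ i, u i * m j i = gord m u
      · rw [if_pos hj, if_pos (show face m u j from hj)]
      · rw [if_neg hj, if_neg (show ¬ face m u j from hj)]
    obtain ⟨i, hi⟩ := hN u hu z hz (by rw [hsum]; exact h)
    refine ⟨i, fun h' => hi ?_⟩
    rw [hsum]
    have e : ∑ j ∈ Pool.Agent.W428.MOT.amin m u, algebraMap F ℂ (c j) *
        ((m j i : ℂ) * ∏ i, z i ^ m j i) = z i * Pool.Agent.W428.MOT.dgbar m
          (fun j => algebraMap F ℂ (c j)) (Pool.Agent.W428.MOT.amin m u) i z := by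
      unfold Pool.Agent.W428.MOT.dgbar
      rw [Finset.mul_sum]
      refine Finset.sum_congr rfl fun j _ => ?_
      by_cases hj : m j i = 0
      · rw [hj]
        simp
      · rw [← Finset.mul_prod_erase Finset.univ _ (Finset.mem_univ i),
          ← Finset.mul_prod_erase Finset.univ (fun i₁ => z i₁ ^ (m j i₁ - if i₁ = i then 1 else 0))
            (Finset.mem_univ i), if_pos rfl]
        have e1 : ∏ x ∈ Finset.univ.erase i, z x ^ (m j x - if x = i then 1 else 0) =
            ∏ x ∈ Finset.univ.erase i, z x ^ m j x := by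
          refine Finset.prod_congr rfl fun x hx => ?_
          rw [if_neg (Finset.ne_of_mem_erase hx), Nat.sub_zero]
        obtain ⟨a, ha⟩ : ∃ a, m j i = a + 1 := ⟨m j i - 1, by omega⟩
        rw [e1, ha, Nat.add_sub_cancel, pow_succ]
        ring
    rw [e, h', mul_zero]
  rcases Pool.Agent.Y229.CF.Mot.no_common4' hil hN' x hx τ0 τ1 τ2 hxτ h0 h1 h2 hn1 hn2 z
    (fun l _ _ => hz l) with h | h
  · left
    intro h'
    apply h
    have e : ∑ j ∈ τ1, algebraMap F ℂ (c j) * ∏ i, z i ^ m j i =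
        z i * Pool.Agent.Y231.N4.gp m (fun j => algebraMap F ℂ (c j)) τ1 i z := by
      unfold Pool.Agent.Y231.N4.gp
      rw [Finset.mul_sum]
      refine Finset.sum_congr rfl fun j hj => ?_
      rw [← Finset.mul_prod_erase Finset.univ _ (Finset.mem_univ i), (h1 j hj).1]
      ring
    rw [e] at h'
    exact (mul_eq_zero.1 h').resolve_left (hz i)
  · right
    intro h'
    apply h
    have e : ∑ j ∈ τ2, algebraMap F ℂ (c j) * ∏ i, z i ^ m j i =
        z l * Pool.Agent.Y231.N4.gp m (fun j => algebraMap F ℂ (c j)) τ2 l z := by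
      unfold Pool.Agent.Y231.N4.gp
      rw [Finset.mul_sum]
      refine Finset.sum_congr rfl fun j hj => ?_
      rw [← Finset.mul_prod_erase Finset.univ _ (Finset.mem_univ l), (h2 j hj).2]
      ring
    rw [e] at h'
    exact (mul_eq_zero.1 h').resolve_left (hz l)

end Pool.Agent.Y228.PC
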