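import Pool.Agent.Y228.PL.Ser5
import Pool.Agent.Y228.PL.Reg
import Pool.Agent.Y228.PC.Zmb

/-!
# No poles of the local p-adic zeta function, from the recurrences
-/

set_option autoImplicit false

namespace Pool.Agent.Y228.PC

open MeasureTheory Filter Topology
open Pool.Agent.W426.SM (gord ford)
open Pool.Agent.W803.SM (filt summable_half exists_gord)
open Pool.Agent.W425.PN (ford_eq qpoly spoly_eq)
open Pool.Agent.W425.BF (gam aux)
open Pool.Agent.TH216.MF
open Pool.Agent.TH216.G3 (RS recJ_iff)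
open Pool.Agent.Y231.N4
open Pool.Agent.W422.LP (PD Wk)
open Pool.Agent.Y228.PL
open Pool.Agent.W880.SM Pool.Agent.W426.SM

variable {r : ℕ}

/-- **No pole.** -/
theorem padic_regP (hr : 0 < r) (v : Fin r → Fin 4 → ℕ) (hv : Function.Injective v)
    (c : Fin r → ℚ) (h2 : ZMbP 0 v c 1) :
    ∃ S : Finset ℕ, ∀ (p : ℕ) [Fact p.Prime], p ∉ S →
      ∀ [MeasurableSpace (Fin 4 → PadicInt p)] [BorelSpace (Fin 4 → PadicInt p)],
      ∀ F : ℂ → ℂ, MeromorphicOn F Set.univ →
        (∀ s : ℂ, 0 < s.re →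
          F s = ∫ x in {x : Fin 4 → PadicInt p | ∀ i, ‖x i‖ ≤ (p : ℝ) ^ (-(1 : ℤ))},
                  ((‖MvPolynomial.eval₂ (algebraMap ℚ (Padic p))
                    (fun i => ((x i : PadicInt p) : Padic p)) (qpoly v c)‖ : ℝ) : ℂ) ^ s
                  ∂(MeasureTheory.Measure.addHaar : MeasureTheory.Measure (Fin 4 → PadicInt p))) →
        ∀ s₀ : ℂ, s₀.re ≠ -1 →
          (∀ e : Finset (Fin r) → ℂ, KRelJ p v Finset.univ e → KRelB p v e →
            RecJ p v e Finset.univ ((p : ℂ) ^ (-s₀))) →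
          0 ≤ meromorphicOrderAt F s₀ := by
  classical
  obtain ⟨S, hS⟩ := h2
  refine ⟨S, ?_⟩
  intro p hpf hpS hmeas hborel F hF hFI s₀ hs1 hrec
  obtain ⟨V, C₀, C₁, hV, hCR, hint⟩ := hS p hpS
  have hp : 2 ≤ p := hpf.out.two_le
  have hp0 : (p : ℂ) ≠ 0 := by exact_mod_cast (by omega : p ≠ 0)
  have hlog : Real.log p ≠ 0 := (Real.log_pos (by exact_mod_cast (by omega : 1 < p))).ne'
  obtain ⟨E, U, K, hER, heq⟩ := series_gamL p hp v C₀ C₁ hCR
  set T0 : ℂ := (p : ℂ) ^ (-s₀) with hT0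
  obtain ⟨Q, A, hQ, hQA⟩ := recE p hp v hv E U hER T0 hrec
  have hA := series_regJ hr p hp v _ Q A hQA
  have hpow : ∀ (a N : ℕ) (s : ℂ), (p : ℂ) ^ (-((a : ℂ) + s * N)) =
      (p : ℂ)⁻¹ ^ a * ((p : ℂ) ^ (-s)) ^ N := by
    intro a N s
    rw [neg_add, Complex.cpow_add _ _ hp0, Complex.cpow_neg, Complex.cpow_natCast, inv_pow,
      ← Complex.cpow_nat_mul]
    congr 2
    ring
  have hdt : Differentiable ℂ fun s : ℂ => (p : ℂ) ^ (-s) := Pool.Agent.W803.SM.diff_pow hp differentiable_id.neg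
  have hfin : ((-((0 : ℕ) : ℤ) : ℤ) : WithTop ℤ) ≤ meromorphicOrderAt F s₀ →
      (0 : WithTop ℤ) ≤ meromorphicOrderAt F s₀ := fun h => by simpa using h
  refine hfin (ord_bound F
    (fun s => Q.eval ((p : ℂ) ^ (-s)) * (1 - (p : ℂ) ^ (-(1 + s))))
    (fun s => V * (Q.eval ((p : ℂ) ^ (-s)) * K - (1 - (p : ℂ) ^ (-s)) * A.eval ((p : ℂ) ^ (-s))))
    ?_ ?_ hF ?_ s₀ 0 ?_)
  · refine ((Polynomial.differentiable Q).comp hdt).mul ?_
    exact (differentiable_const _).sub (Pool.Agent.W803.SM.diff_pow hp (by fun_prop))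
  · refine (differentiable_const _).mul ?_
    refine (((Polynomial.differentiable Q).comp hdt).mul (differentiable_const _)).sub ?_
    exact ((differentiable_const _).sub hdt).mul ((Polynomial.differentiable A).comp hdt)
  · intro s hs
    set t : ℂ := (p : ℂ) ^ (-s) with ht
    have ht1 : ‖t‖ < 1 := by
      rw [ht, Complex.norm_natCast_cpow_of_pos (by omega)]
      refine Real.rpow_lt_one_of_one_lt_of_neg (by exact_mod_cast (by omega : 1 < p)) ?_
      rw [Complex.neg_re]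
      linarith
    have hX : (p : ℂ) ^ (-(1 + s)) = (p : ℂ)⁻¹ * t := by
      have := hpow 1 1 s
      simpa using this
    have hX1 : 1 - (p : ℂ)⁻¹ * t ≠ 0 := by
      intro h
      have h3 : (p : ℂ)⁻¹ * t = 1 := (sub_eq_zero.1 h).symm
      have h4 : ‖(p : ℂ)⁻¹ * t‖ < 1 := by
        rw [norm_mul, norm_inv, Complex.norm_natCast]
        have h5 : ((p : ℝ))⁻¹ ≤ 1 := inv_le_one_of_one_le₀ (by exact_mod_cast (by omega : 1 ≤ p))
        calc (p : ℝ)⁻¹ * ‖t‖ ≤ 1 * ‖t‖ := by gcongr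
          _ < 1 := by rw [one_mul]; exact ht1
      rw [h3, norm_one] at h4
      exact lt_irrefl _ h4
    have hsum : ∀ u : Fin 4 → ℕ,
        (1 - (p : ℂ) ^ (-(1 + s))) * (Wk (fun _ => 1) p 0 v 1 s u *
                ((C₀ (Finset.univ.filter fun j => ∑ i, u i * v j i = gord v u) : ℂ) +
                  (C₁ (Finset.univ.filter fun j => ∑ i, u i * v j i = gord v u) : ℂ) *
                    ((p : ℂ) ^ (-(((1 : ℕ) : ℂ) * s)) /
                      (1 - (p : ℂ) ^ (-(1 + ((1 : ℕ) : ℂ) * s)))))) =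
        if ∀ i, 0 < u i then
          (p : ℂ)⁻¹ ^ (∑ x, u x) * t ^ gord v u * (gam p C₀ C₁ (filt v u)).eval t else 0 := by
      intro u
      unfold Pool.Agent.W422.LP.Wk
      by_cases hu : ∀ i, 0 < u i
      · have hu1 : ∀ i, (fun _ : Fin 4 => 1) i ≤ u i := fun i => hu i
        rw [if_pos hu, if_pos hu1]
        have e1 : Pool.Agent.W803.SM.W p 0 v 1 s u =
            (p : ℂ) ^ (-(((∑ i, u i : ℕ) : ℂ) + s * ford 0 v 1 u)) := rfl
        rw [e1, ford_eq, hpow, Nat.cast_one, one_mul, hX, ← ht]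
        unfold gam
        simp only [Polynomial.eval_add, Polynomial.eval_mul, Polynomial.eval_C,
          Polynomial.eval_sub, Polynomial.eval_one, Polynomial.eval_X]
        show _ = (p : ℂ)⁻¹ ^ (∑ x, u x) * t ^ gord v u *
          ((C₀ (Finset.univ.filter fun j => ∑ i, u i * v j i = gord v u) : ℂ) *
            (1 - (p : ℂ)⁻¹ * t) +
            (C₁ (Finset.univ.filter fun j => ∑ i, u i * v j i = gord v u) : ℂ) * t)
        exact aux _ _ _ _ _ hX1
      · have hu1 : ¬ ∀ i, (fun _ : Fin 4 => 1) i ≤ u i := fun h => hu fun i => h i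
        rw [if_neg hu, if_neg hu1, zero_mul, mul_zero]
    have hI : (1 - (p : ℂ) ^ (-(1 + s))) * F s = V * (K - (1 - t) * ∑' x : Fin 4 → ℕ,
        if ∀ i, 0 < x i then (p : ℂ)⁻¹ ^ (∑ i, x i) *
          ((U ∅ - E * (p : ℂ)⁻¹) * ∑ t' ∈ Finset.range (gord v x), t ^ t' +
            (U (filt v x) - E * (p : ℂ)⁻¹) * t ^ gord v x) else 0) := by
      rw [hFI s hs, ← heq t ht1, ← tsum_congr hsum, tsum_mul_left]
      have h6 := hint (fun _ => 1) s (fun _ => le_rfl) hs
      have h7 : ∫ x in {x : Fin 4 → PadicInt p | ∀ i, ‖x i‖ ≤ (p : ℝ) ^ (-(1 : ℤ))},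
                  ((‖MvPolynomial.eval₂ (algebraMap ℚ (Padic p))
                    (fun i => ((x i : PadicInt p) : Padic p)) (qpoly v c)‖ : ℝ) : ℂ) ^ s
                  ∂(MeasureTheory.Measure.addHaar : MeasureTheory.Measure (Fin 4 → PadicInt p)) =
          ∫ x in PD p (fun _ => 1), ((pval p (spoly 0 v c 1) x : ℝ) : ℂ) ^ s
              ∂(Measure.addHaar : Measure (Fin 4 → PadicInt p)) := by
        rw [spoly_eq]
        rfl
      rw [h7, h6]
      ring
    show Q.eval t * (1 - (p : ℂ) ^ (-(1 + s))) * F s =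
      V * (Q.eval t * K - (1 - t) * A.eval t)
    rw [mul_assoc, hI, ← hA t ht1]
    ring
  · -- the order of `D`
    have ha1 : AnalyticAt ℂ (fun s : ℂ => Q.eval ((p : ℂ) ^ (-s)) * (1 - (p : ℂ) ^ (-(1 + s))))
        s₀ := by
      refine Differentiable.analyticAt ?_ s₀
      refine ((Polynomial.differentiable Q).comp hdt).mul ?_
      exact (differentiable_const _).sub (Pool.Agent.W803.SM.diff_pow hp (by fun_prop))
    have hne : Q.eval ((p : ℂ) ^ (-s₀)) * (1 - (p : ℂ) ^ (-(1 + s₀))) ≠ 0 := by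
      refine mul_ne_zero hQ fun h0 => ?_
      have h3 : (p : ℂ) ^ (-(1 + s₀)) = 1 := (sub_eq_zero.1 h0).symm
      have h4 := congrArg norm h3
      rw [Complex.norm_natCast_cpow_of_pos (by omega), norm_one] at h4
      have h5 := congrArg Real.log h4
      rw [Real.log_rpow (by positivity), Real.log_one] at h5
      rcases mul_eq_zero.1 h5 with h6 | h6
      · apply hs1
        have h7 : (-(1 + s₀)).re = -1 - s₀.re := by
          simp
          ring
        rw [h7] at h6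
        linarith
      · exact hlog h6
    rw [ha1.meromorphicOrderAt_eq, ha1.analyticOrderAt_eq_zero.2 hne]
    exact le_refl _

end Pool.Agent.Y228.PC
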