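import Pool.Agent.Y228.PC.Idn

/-!
# The numbers of points, for the compact faces
-/

set_option autoImplicit false

namespace Pool.Agent.Y228.PC

open MeasureTheory Pool.Agent.W426.SM Pool.Agent.W424.SM.ZMU Pool.Agent.W22.SM.ZMA
open Pool.Agent.W425.PN (Idn eval_le_one coe_GG coe_DD nondeg_mod)
open Pool.Agent.W425.BF (Un Zr toZMod_GG uu_eq un_eq nz_eq ncard_un TaskFCT TaskCNT fct cnt)
open Pool.Agent.W428.MOT (amin)
open Pool.Agent.Y228.PL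
open Pool.Agent.Y229.CF (NonDP)

/-- the conclusion of (ZMA) -/
def ZMAbP {k : ℕ} (m : Fin k → Fin 4 → ℕ) (c : Fin k → ℚ) : Prop :=
    ∃ S : Finset ℕ, ∀ (p : ℕ) [Fact p.Prime], p ∉ S →
      ∀ [MeasurableSpace (Fin 4 → PadicInt p)] [BorelSpace (Fin 4 → PadicInt p)],
      ∃ C₀ C₁ : Finset (Fin k) → ℝ, CRelB m p C₀ C₁ ∧ ∀ u : Fin 4 → ℕ, (∀ i, 0 < u i) →
        ((Measure.addHaar : Measure (Fin 4 → PadicInt p))
            {x | (∀ i, ‖x i‖ = (p : ℝ) ^ (-(u i : ℤ))) ∧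
              ‖gp p m c 0 x‖ = (p : ℝ) ^ (-(gord m u : ℤ))}).toReal =
          ((Measure.addHaar : Measure (Fin 4 → PadicInt p)) Set.univ).toReal *
            (p : ℝ) ^ (-((∑ i, u i : ℕ) : ℤ)) *
            C₀ (Finset.univ.filter fun j => ∑ i, u i * m j i = gord m u) ∧
        ∀ l : ℕ, ((Measure.addHaar : Measure (Fin 4 → PadicInt p))
            {x | (∀ i, ‖x i‖ = (p : ℝ) ^ (-(u i : ℤ))) ∧
              ‖gp p m c 0 x‖ = (p : ℝ) ^ (-((gord m u : ℤ) + (l + 1)))}).toReal =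
          ((Measure.addHaar : Measure (Fin 4 → PadicInt p)) Set.univ).toReal *
            (p : ℝ) ^ (-((∑ i, u i : ℕ) : ℤ)) *
            C₁ (Finset.univ.filter fun j => ∑ i, u i * m j i = gord m u) * (p : ℝ) ^ (-(l : ℤ))

/-- (ZMA) for nondegenerate polynomials -/
theorem zmaBP {k : ℕ} (m : Fin k → Fin 4 → ℕ)
    (c : Fin k → ℚ) (hc : ∀ j, c j ≠ 0) (hk : 0 < k)
    (hND : NonDP m (fun j => algebraMap ℚ ℂ (c j))) : ZMAbP m c := by
  classical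
  have hid : ∀ u : Fin 4 → ℕ, (∀ i, 0 < u i) → Idn m c (Finset.univ.filter fun j =>
      ∑ i, u i * m j i = gord m u) := fun u hu => idn_ofP m c hND u hu
  -- the identities for two parts
  have hid2 : ∀ τ : Finset (Fin k) × Finset (Fin k), ∃ (M : ℕ) (B1 B2 : MvPolynomial (Fin 4) ℚ),
      Idn2 m c τ.1 τ.2 → (∏ i, MvPolynomial.X i : MvPolynomial (Fin 4) ℚ) ^ M =
        B1 * pt m c τ.1 + B2 * pt m c τ.2 := by
    intro τ
    by_cases h : Idn2 m c τ.1 τ.2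
    · obtain ⟨M, B1, B2, hB⟩ := h
      exact ⟨M, B1, B2, fun _ => hB⟩
    · exact ⟨0, 0, 0, fun h' => absurd h' h⟩
  choose M2 B1 B2 hB2 using hid2
  -- the identities
  have hid' : ∀ τ : Finset (Fin k), ∃ (M : ℕ) (B0 : MvPolynomial (Fin 4) ℚ)
      (B : Fin 4 → MvPolynomial (Fin 4) ℚ),
      (∃ u : Fin 4 → ℕ, (∀ i, 0 < u i) ∧
        τ = Finset.univ.filter fun j => ∑ i, u i * m j i = gord m u) →
      (∏ i, MvPolynomial.X i : MvPolynomial (Fin 4) ℚ) ^ M =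
      B0 * (∑ j ∈ τ, MvPolynomial.C (c j) * ∏ i, MvPolynomial.X i ^ m j i) +
        ∑ i, B i * ∑ j ∈ τ, MvPolynomial.C (c j * (m j i : ℚ)) *
          ∏ i', MvPolynomial.X i' ^ m j i' := by
    intro τ
    by_cases h : ∃ u : Fin 4 → ℕ, (∀ i, 0 < u i) ∧
        τ = Finset.univ.filter fun j => ∑ i, u i * m j i = gord m u
    · obtain ⟨u, hu0, hu⟩ := h
      obtain ⟨M, B0, B, hB⟩ := hid u hu0
      exact ⟨M, B0, B, fun _ => by rw [hu]; exact hB⟩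
    · exact ⟨0, 0, fun _ => 0, fun h' => absurd h' h⟩
  choose M B0 B hB using hid'
  refine ⟨(Finset.univ.biUnion fun τ : Finset (Fin k) × Finset (Fin k) =>
      ((B1 τ).support.biUnion fun w => ((B1 τ).coeff w).den.primeFactors) ∪
      ((B2 τ).support.biUnion fun w => ((B2 τ).coeff w).den.primeFactors)) ∪
    ((Finset.univ.biUnion fun j => (c j).num.natAbs.primeFactors) ∪
    ((Finset.univ.biUnion fun j => (c j).den.primeFactors) ∪
    Finset.univ.biUnion fun τ : Finset (Fin k) =>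
      ((B0 τ).support.biUnion fun w => ((B0 τ).coeff w).den.primeFactors) ∪
      Finset.univ.biUnion fun i => (B τ i).support.biUnion fun w =>
        ((B τ i).coeff w).den.primeFactors)), ?_⟩
  intro p hp hpS'' _ _
  rw [Finset.mem_union, not_or] at hpS''
  have hpS' := hpS''.2
  rw [Finset.mem_union, not_or] at hpS'
  have hpS := hpS'.2
  rw [Finset.mem_union, not_or] at hpS
  have hrat : ∀ q : ℚ, p ∉ q.den.primeFactors → ‖((q : ℚ) : ℚ_[p])‖ ≤ 1 := fun q hq =>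
    Padic.norm_rat_le_one fun hd => hq (Nat.mem_primeFactors.2 ⟨hp.out, hd, q.den_ne_zero⟩)
  have hcn : ∀ j, ‖((c j : ℚ) : ℚ_[p])‖ ≤ 1 := fun j =>
    hrat _ fun h => hpS.1 (Finset.mem_biUnion.2 ⟨j, Finset.mem_univ j, h⟩)
  have hB0n : ∀ τ, ∀ w ∈ (B0 τ).support, ‖(((B0 τ).coeff w : ℚ) : ℚ_[p])‖ ≤ 1 := fun τ w hw =>
    hrat _ fun h => hpS.2 (Finset.mem_biUnion.2 ⟨τ, Finset.mem_univ τ,
      Finset.mem_union_left _ (Finset.mem_biUnion.2 ⟨w, hw, h⟩)⟩)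
  have hBn : ∀ τ i, ∀ w ∈ (B τ i).support, ‖(((B τ i).coeff w : ℚ) : ℚ_[p])‖ ≤ 1 :=
    fun τ i w hw => hrat _ fun h => hpS.2 (Finset.mem_biUnion.2 ⟨τ, Finset.mem_univ τ,
      Finset.mem_union_right _ (Finset.mem_biUnion.2 ⟨i, Finset.mem_univ i,
        Finset.mem_biUnion.2 ⟨w, hw, h⟩⟩)⟩)
  have hB1n : ∀ τ, ∀ w ∈ (B1 τ).support, ‖(((B1 τ).coeff w : ℚ) : ℚ_[p])‖ ≤ 1 := fun τ w hw =>
    hrat _ fun h => hpS''.1 (Finset.mem_biUnion.2 ⟨τ, Finset.mem_univ τ,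
      Finset.mem_union_left _ (Finset.mem_biUnion.2 ⟨w, hw, h⟩)⟩)
  have hB2n : ∀ τ, ∀ w ∈ (B2 τ).support, ‖(((B2 τ).coeff w : ℚ) : ℚ_[p])‖ ≤ 1 := fun τ w hw =>
    hrat _ fun h => hpS''.1 (Finset.mem_biUnion.2 ⟨τ, Finset.mem_univ τ,
      Finset.mem_union_right _ (Finset.mem_biUnion.2 ⟨w, hw, h⟩)⟩)
  have hp0 : (0 : ℝ) < p := by exact_mod_cast hp.out.pos
  let cz : Fin k → ℤ_[p] := fun j => ⟨((c j : ℚ) : ℚ_[p]), hcn j⟩
  let bt : Finset (Fin k) → Fin k → ℤ_[p] := fun τ j => if j ∈ τ then cz j else 0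
  let μ : Measure (Fin 4 → PadicInt p) := Measure.addHaar
  have hμ : (Measure.addHaar : Measure (Fin 4 → PadicInt p)) = μ := rfl
  rw [hμ]
  have hV : 0 < (μ Set.univ).toReal := by
    refine ENNReal.toReal_pos ?_ (measure_ne_top μ _)
    exact (isOpen_univ.measure_pos μ Set.univ_nonempty).ne'
  refine ⟨fun τ => (μ {y | (∀ i, ‖y i‖ = 1) ∧ ‖GG m (bt τ) y‖ = 1}).toReal / (μ Set.univ).toReal,
    fun τ => (μ (UU m (bt τ) 0)).toReal / (μ Set.univ).toReal * (1 - (p : ℝ)⁻¹),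
    crelB m μ rfl cz (fun j => ?_) (fun i l hil τ0 τ1 τ2 h0 h1 h2 hn1 hn2 hx z hz =>
      nc_mod m c τ1 τ2 (M2 (τ1, τ2)) (B1 (τ1, τ2)) (B2 (τ1, τ2))
        (hB2 (τ1, τ2) (idn2_faceP m c hND hil τ0 τ1 τ2 h0 h1 h2 hn1 hn2 hx)) (hB1n _) (hB2n _)
        cz (fun _ => rfl) z hz), ?_⟩
  · have h1 : ‖cz j‖ = ‖((c j : ℚ) : ℚ_[p])‖ := rfl
    rw [h1]
    refine le_antisymm (hcn j) ?_
    have h2 : ‖(((c j)⁻¹ : ℚ) : ℚ_[p])‖ ≤ 1 := hrat _ fun h => hpS'.1 (Finset.mem_biUnion.2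
      ⟨j, Finset.mem_univ j, by
        rw [← Rat.den_inv_of_ne_zero (hc j)]
        exact h⟩)
    rw [Rat.cast_inv, norm_inv] at h2
    have h3 : 0 < ‖((c j : ℚ) : ℚ_[p])‖ := norm_pos_iff.2 (by exact_mod_cast hc j)
    rwa [inv_le_one₀ h3] at h2
  intro u hu0
  set δ : Fin k → ℕ := fun j => ∑ i, u i * m j i - gord m u with hδ
  have hδ0 : ∀ j, δ j = 0 ↔ ∑ i, u i * m j i = gord m u := by
    intro j
    have := Pool.Agent.W426.SM.gord_le m u j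
    simp only [hδ]
    omega
  set τ := Finset.univ.filter fun j => ∑ i, u i * m j i = gord m u with hτ
  have hmem : ∀ j, j ∈ τ ↔ δ j = 0 := fun j => by rw [hδ0, hτ]; simp
  let b : Fin k → ℤ_[p] := fun j => cz j * (p : ℤ_[p]) ^ δ j
  have hgp : ∀ y : Fin 4 → PadicInt p, ‖gp p m c δ y‖ = ‖GG m b y‖ := by
    intro y
    rw [PadicInt.norm_def, coe_GG]
    congr 1
  have hmodX : ∀ (y : Fin 4 → PadicInt p) (j : Fin k),
      PadicInt.toZMod (XX m b y j) = PadicInt.toZMod (XX m (bt τ) y j) := by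
    intro y j
    unfold XX
    rw [map_mul PadicInt.toZMod (b j), map_mul PadicInt.toZMod (bt τ j)]
    congr 1
    show PadicInt.toZMod (cz j * (p : ℤ_[p]) ^ δ j) =
      PadicInt.toZMod (if j ∈ τ then cz j else 0)
    by_cases h : δ j = 0
    · rw [if_pos ((hmem j).2 h), h, pow_zero, mul_one]
    · rw [if_neg (fun h' => h ((hmem j).1 h')), map_zero, map_mul, map_pow, toZMod_p, zero_pow h,
        mul_zero]
  have hmod : ∀ y : Fin 4 → PadicInt p,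
      PadicInt.toZMod (GG m b y) = PadicInt.toZMod (GG m (bt τ) y) := by
    intro y
    unfold GG
    rw [map_sum, map_sum]
    exact Finset.sum_congr rfl fun j _ => hmodX y j
  have hmodD : ∀ (y : Fin 4 → PadicInt p) (i : Fin 4),
      PadicInt.toZMod (DD m b i y) = PadicInt.toZMod (DD m (bt τ) i y) := by
    intro y i
    unfold DD
    rw [map_sum, map_sum]
    refine Finset.sum_congr rfl fun j _ => ?_
    rw [map_mul, map_mul, hmodX y j]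
  have hnd : ∀ y : Fin 4 → ℤ_[p], (∀ i, ‖y i‖ = 1) → ‖GG m b y‖ < 1 →
      ∃ i, ‖DD m b i y‖ = 1 := by
    intro y h1 h2
    rw [← toZMod_eq_zero, hmod y, toZMod_eq_zero] at h2
    obtain ⟨i, hi⟩ := nondeg_mod m c τ (M τ) (B0 τ) (B τ) (hB τ ⟨u, hu0, hτ⟩) (hB0n τ) (hBn τ)
      (bt τ) (fun j => by
        show ((if j ∈ τ then cz j else 0 : ℤ_[p]) : ℚ_[p]) = _
        split_ifs
        · rfl
        · rfl) y h1 h2
    refine ⟨i, ?_⟩
    rw [← toZMod_ne_zero, hmodD y i, toZMod_ne_zero]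
    exact hi
  have hUU0 : UU m b 0 = UU m (bt τ) 0 := by
    ext y
    show (∀ i, ‖y i‖ = 1) ∧ (p : ℤ_[p]) ^ (0 + 1) ∣ GG m b y ↔
      (∀ i, ‖y i‖ = 1) ∧ (p : ℤ_[p]) ^ (0 + 1) ∣ GG m (bt τ) y
    rw [zero_add, pow_one, ← toZMod_eq_zero', ← toZMod_eq_zero', hmod y]
  have hpne : (p : ℝ) ≠ 0 := hp0.ne'
  have h1 : (μ {y | (∀ i, ‖y i‖ = 1) ∧ ‖gp p m c δ y‖ = 1}).toReal =
      (μ Set.univ).toReal * ((μ {y | (∀ i, ‖y i‖ = 1) ∧ ‖GG m (bt τ) y‖ = 1}).toReal /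
      (μ Set.univ).toReal) := by
    have hset : {y : Fin 4 → PadicInt p | (∀ i, ‖y i‖ = 1) ∧ ‖gp p m c δ y‖ = 1} =
        {y | (∀ i, ‖y i‖ = 1) ∧ ‖GG m (bt τ) y‖ = 1} := by
      ext y
      simp only [Set.mem_ofPred_eq, hgp y]
      rw [← toZMod_ne_zero, ← toZMod_ne_zero, hmod y]
    rw [hset]
    field_simp
  have h2 : ∀ l : ℕ, (μ {y | (∀ i, ‖y i‖ = 1) ∧
      ‖gp p m c δ y‖ = (p : ℝ) ^ (-((l : ℤ) + 1))}).toReal =
      (μ Set.univ).toReal * ((μ (UU m (bt τ) 0)).toReal / (μ Set.univ).toReal *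
      (1 - (p : ℝ)⁻¹)) * (p : ℝ) ^ (-(l : ℤ)) := by
    intro l
    have hset : {y : Fin 4 → PadicInt p | (∀ i, ‖y i‖ = 1) ∧
        ‖gp p m c δ y‖ = (p : ℝ) ^ (-((l : ℤ) + 1))} = UU m b l \ UU m b (l + 1) := by
      rw [← diff_eq]
      ext y
      simp only [Set.mem_ofPred_eq, hgp y]
    rw [hset]
    have hsub : UU m b (l + 1) ⊆ UU m b l := fun y hy =>
      ⟨hy.1, (pow_dvd_pow _ (by omega)).trans hy.2⟩
    rw [measure_sdiff hsub (meas_UU m b (l + 1)).nullMeasurableSet (measure_ne_top μ _),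
      ENNReal.toReal_sub_of_le (measure_mono hsub) (measure_ne_top μ _),
      UU_real m b hnd l μ, UU_real m b hnd (l + 1) μ, hUU0]
    have e : (p : ℝ) ^ (-((l + 1 : ℕ) : ℤ)) = (p : ℝ) ^ (-(l : ℤ)) * (p : ℝ)⁻¹ := by
      rw [← zpow_sub_one₀ hpne]
      congr 1
      push_cast
      ring
    rw [e]
    field_simp
  constructor
  · have h3 := set_eq (p := p) m c u 1
    rw [mul_one] at h3
    rw [h3, ← hμ, measure_image, hμ, h1]
    ring
  · intro l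
    have h3 := set_eq (p := p) m c u ((p : ℝ) ^ (-((l : ℤ) + 1)))
    rw [← zpow_add₀ hp0.ne', ← neg_add] at h3
    rw [h3, ← hμ, measure_image, hμ, h2 l]
    ring


end Pool.Agent.Y228.PC
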